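import Pool.Agent.Q80.AC.Stm2

set_option autoImplicit false

open MeasureTheory Topology Filter
open scoped ENNReal NNReal ComplexConjugate

noncomputable section

namespace Q66.AC.PSI

open Pool.Agent.Q80.AC

variable {H : Type} [Group H] [TopologicalSpace H] [IsTopologicalGroup H] [LocallyCompactSpace H]
  [SecondCountableTopology H] [T2Space H] [MeasurableSpace H] [BorelSpace H]

theorem lam_one (m : Measure H) [m.IsHaarMeasure] (ξ : Lp ℂ 2 m) : lam m 1 ξ = ξ := by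
  apply Lp.ext
  have h1 : (lam m 1 ξ : H → ℂ) =ᵐ[m] (ξ : H → ℂ) ∘ fun x => (1 : H)⁻¹ * x :=
    Lp.coeFn_compMeasurePreserving ξ (measurePreserving_mul_left m (1 : H)⁻¹)
  refine h1.trans ?_
  filter_upwards with x
  simp

theorem fa_single (m : Measure H) [m.IsHaarMeasure] (ξ : Lp ℂ 2 m) (h : ‖ξ‖ = 1) :
    FA m 1 fun s => inner ℂ ξ (lam m s ξ) := by
  classical
  let ζ : ℕ → Lp ℂ 2 m := fun n => if n = 0 then ξ else 0
  have h0 : ζ 0 = ξ := if_pos rfl
  have h1 : ∀ n, n ≠ 0 → ζ n = 0 := fun n hn => if_neg hn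
  have hs : HasSum (fun n => ‖ζ n‖ * ‖ζ n‖) (‖ζ 0‖ * ‖ζ 0‖) :=
    hasSum_single 0 fun n hn => by rw [h1 n hn]; simp
  refine ⟨ζ, ζ, hs.summable, ?_, fun s => ?_⟩
  · rw [hs.tsum_eq, h0, h]
    norm_num
  · rw [tsum_eq_single 0 fun n hn => by rw [h1 n hn]; simp]
    rw [h0]

theorem t_PSI (hU : S_U0) (hR : S_RU) (hC : S_COEF) : S_PSI := by
  intro H _ _ _ _ _ _ _ _ m _ hm
  obtain ⟨u0, a1, a2, a3, a4, a5, a6⟩ := hU H m
  let K : CompactExhaustion H := default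
  choose ξ b1 b2 b3 using fun k : ℕ => hR H m hm (K k) (K.isCompact k) ((1 / 2) ^ k) (by positivity)
  let u : ℕ → H → ℂ := fun k => if k = 0 then u0 else fun s => inner ℂ (ξ k) (lam m s (ξ k))
  have e0 : u 0 = u0 := if_pos rfl
  have e1 : ∀ k, k ≠ 0 → u k = fun s => inner ℂ (ξ k) (lam m s (ξ k)) := fun k hk => if_neg hk
  refine ⟨u, ⟨fun k => ?_, fun k => ?_, fun k => ?_, fun k => ?_, fun k s => ?_, ?_, ?_⟩⟩
  · rcases eq_or_ne k 0 with rfl | hk
    · rw [e0]; exact a1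
    · rw [e1 k hk]; exact fa_single m (ξ k) (b1 k)
  · rcases eq_or_ne k 0 with rfl | hk
    · rw [e0]; exact a2
    · rw [e1 k hk]; exact (hC H m (ξ k) (ξ k)).1
  · rcases eq_or_ne k 0 with rfl | hk
    · rw [e0]; exact a3
    · rw [e1 k hk]; exact (hC H m (ξ k) (ξ k)).2.1
  · rcases eq_or_ne k 0 with rfl | hk
    · rw [e0]; exact a4
    · rw [e1 k hk]
      show inner ℂ (ξ k) (lam m 1 (ξ k)) = 1
      rw [lam_one, inner_self_eq_norm_sq_to_K, b1 k]
      norm_num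
  · rcases eq_or_ne k 0 with rfl | hk
    · rw [e0]; exact a5 s
    · rw [e1 k hk]
      refine ⟨(b2 k s).1, (b2 k s).2, ?_⟩
      have h := (hC H m (ξ k) (ξ k)).2.2 s
      rw [b1 k, one_mul] at h
      exact (Complex.re_le_norm _).trans h
  · intro W hW
    obtain ⟨δ, hδ, hδ'⟩ := a6 W hW
    refine ⟨δ, hδ, fun s hs => ?_⟩
    rw [e0]
    exact hδ' s hs
  · intro L hL
    obtain ⟨n, hn⟩ := K.exists_superset_of_isCompact hL
    refine ⟨n + 1, fun k hk s hs => ?_⟩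
    rw [e1 k (by omega)]
    exact b3 k s (K.subset (by omega) (hn hs))

end Q66.AC.PSI
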