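import Pool.Agent.Q80.AC.Stm

set_option autoImplicit false

open MeasureTheory Topology Filter
open scoped ENNReal NNReal

noncomputable section

namespace Q66.AC.SEQ

open Pool.Agent.Q80.AC

theorem tv_zero {X : Type} [MeasurableSpace X] (μ : Measure X) {c : ℝ} (hc : 0 ≤ c) : TV μ μ c := by
  intro f _ _
  simpa using hc

section

variable {H : Type} [MeasurableSpace H]

/-- sums of a list of measures -/
def lsum (l : List (Measure H)) : Measure H := l.sum

theorem lsum_finite (l : List (Measure H)) (h : ∀ x ∈ l, IsProbabilityMeasure x) :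
    IsFiniteMeasure l.sum := by
  induction l with
  | nil => simp only [List.sum_nil]; infer_instance
  | cons a l ih =>
    rw [List.sum_cons]
    have h1 : IsProbabilityMeasure a := h a (by simp)
    have h2 : IsFiniteMeasure l.sum := ih fun x hx => h x (by simp [hx])
    infer_instance

theorem lsum_ac (m : Measure H) (l : List (Measure H)) (h : ∀ x ∈ l, x ≪ m) : l.sum ≪ m := by
  induction l with
  | nil => simp only [List.sum_nil]; exact Measure.AbsolutelyContinuous.zero m
  | cons a l ih =>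
    rw [List.sum_cons]
    have h1 := h a (by simp)
    have h2 := ih fun x hx => h x (by simp [hx])
    intro s hs
    rw [Measure.add_apply, h1 hs, h2 hs, add_zero]

end

/-- Sequence with history: `P n l x`: `x` is admissible after the history `l` of length `n`. -/
theorem seq_of_history {X : Type} (G : X → Prop) (P : ℕ → List X → X → Prop)
    (h : ∀ n l, l.length = n → (∀ x ∈ l, G x) → ∃ x, G x ∧ P n l x) :
    ∃ ρ : ℕ → X, (∀ n, G (ρ n)) ∧ ∀ n, P n ((List.range n).map ρ) (ρ n) := by
  classical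
  -- histories
  let T : ℕ → Type := fun n => {l : List X // l.length = n ∧ ∀ x ∈ l, G x}
  have : Nonempty X := ⟨(h 0 [] rfl (by simp)).choose⟩
  choose! f hf using h
  let hist : (n : ℕ) → T n := fun n => Nat.rec (motive := fun n => T n) ⟨[], rfl, by simp⟩
    (fun n l => ⟨l.1 ++ [f n l.1], by simp [l.2.1], by
      intro x hx
      rw [List.mem_append] at hx
      rcases hx with hx | hx
      · exact l.2.2 x hx
      · rw [List.mem_singleton] at hx
        rw [hx]
        exact (hf n l.1 l.2.1 l.2.2).1⟩) n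
  let ρ : ℕ → X := fun n => f n (hist n).1
  have hh : ∀ n, (hist n).1 = (List.range n).map ρ := by
    intro n
    induction n with
    | zero => rfl
    | succ n ih =>
      have e1 : (hist (n + 1)).1 = (hist n).1 ++ [f n (hist n).1] := rfl
      rw [e1, List.range_succ, List.map_append, ← ih]
      rfl
  refine ⟨ρ, fun n => ?_, fun n => ?_⟩
  · exact (hf n (hist n).1 (hist n).2.1 (hist n).2.2).1
  · have h2 := (hf n (hist n).1 (hist n).2.1 (hist n).2.2).2
    rw [hh n] at h2
    have e2 : ρ n = f n (List.map ρ (List.range n)) := by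
      show f n (hist n).1 = _
      rw [hh n]
    rw [e2]
    exact h2

theorem t_SEQ (hL : S_TRL) (hR : S_TRR) (hS : S_SYM) : S_SEQ := by
  intro H _ _ _ _ _ _ _ _ m _ W hW
  obtain ⟨hS1, hS2⟩ := hS H m
  have key := seq_of_history (X := Measure H)
    (fun x => IsProbabilityMeasure x ∧ x ≪ m ∧ x.map (fun y => y⁻¹) = x)
    (fun n l x => (n = 0 → m ≪ x) ∧ (1 ≤ n → x (W n)ᶜ = 0 ∧
      TV (x ∗ₘ l.sum) l.sum ((1 / 2) ^ n / (n + 2)) ∧
      TV (l.sum ∗ₘ x) l.sum ((1 / 2) ^ n / (n + 2)))) ?_
  · obtain ⟨ρ, h1, h2⟩ := key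
    have hsg : ∀ n, sg ρ n = ((List.range n).map ρ).sum := by
      intro n
      unfold sg
      rw [Finset.sum_range]
      rw [← List.sum_ofFn]
      congr 1
      rw [List.ofFn_eq_map]
      apply List.ext_getElem
      · simp
      · intro i h1 h2
        simp
    refine ⟨ρ, fun n => (h1 n).1, fun n => (h1 n).2.1, fun n => (h1 n).2.2, (h2 0).1 rfl,
      fun n hn => ((h2 n).2 hn).1, fun n => ?_⟩
    rcases Nat.eq_zero_or_pos n with rfl | hn
    · have e0 : sg ρ 0 = 0 := by simp [sg]
      rw [e0]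
      have h3 : ρ 0 ∗ₘ (0 : Measure H) = 0 := Measure.mconv_zero _
      have h4 : (0 : Measure H) ∗ₘ ρ 0 = 0 := Measure.zero_mconv _
      rw [h3, h4]
      exact ⟨tv_zero _ (by positivity), tv_zero _ (by positivity)⟩
    · rw [hsg n]
      exact ((h2 n).2 hn).2
  · intro n l hl hG
    rcases Nat.eq_zero_or_pos n with rfl | hn
    · obtain ⟨x, a1, a2, a3, a4⟩ := hS1
      exact ⟨x, ⟨a1, a2, a4⟩, fun _ => a3, fun h => absurd h (by norm_num)⟩
    · have f1 : IsFiniteMeasure l.sum := lsum_finite l fun x hx => (hG x hx).1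
      have f2 : l.sum ≪ m := lsum_ac m l fun x hx => (hG x hx).2.1
      have he : (0 : ℝ) < (1 / 2) ^ n / (n + 2) := by positivity
      obtain ⟨V1, hV1, hV1'⟩ := hL H m l.sum f2 _ he
      obtain ⟨V2, hV2, hV2'⟩ := hR H m l.sum f2 _ he
      obtain ⟨x, a1, a2, a3, a4⟩ := hS2 (V1 ∩ V2 ∩ W n)
        (Filter.inter_mem (Filter.inter_mem hV1 hV2) (hW n))
      have z : ∀ V : Set H, V1 ∩ V2 ∩ W n ⊆ V → x Vᶜ = 0 := fun V hV =>
        measure_mono_null (Set.compl_subset_compl.mpr hV) a3
      refine ⟨x, ⟨a1, a2, a4⟩, fun h => absurd h (by omega), fun _ => ⟨z _ fun y hy => hy.2,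
        hV1' x a1 (z _ fun y hy => hy.1.1), hV2' x a1 (z _ fun y hy => hy.1.2)⟩⟩

end Q66.AC.SEQ
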